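import Pool.Agent.W192.CM.Parts

/-!
# The Moebius function of a principal ideal domain with finitely many units
-/

set_option autoImplicit false
set_option linter.unusedSectionVars false

namespace Pool.Agent.W216.CM

open Pool.Agent.W192.CM UniqueFactorizationMonoid

section gen

variable {A : Type} [CommRing A] [IsDomain A] [UniqueFactorizationMonoid A]

open Classical in
/-- the Moebius function -/
noncomputable def mob (β : A) : ℝ :=
  if Squarefree β then (-1) ^ (factors β).card else 0

theorem mob_le (β : A) : |mob β| ≤ 1 := by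
  unfold mob
  split_ifs with h
  · rw [abs_pow, abs_neg, abs_one, one_pow]
  · rw [abs_zero]; exact zero_le_one

theorem card_unit {u : A} (hu : IsUnit u) : (factors u).card = 0 := by
  rw [Multiset.card_eq_zero]
  apply Multiset.eq_zero_of_forall_notMem
  intro p hp
  have h1 : Irreducible p := irreducible_of_factor p hp
  have h2 : p ∣ u := dvd_of_mem_factors hp
  exact h1.not_isUnit (isUnit_of_dvd_unit h2 hu)

theorem mob_unit {u : A} (hu : IsUnit u) : mob u = 1 := by
  unfold mob
  rw [if_pos hu.squarefree, card_unit hu, pow_zero]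

theorem card_mul {p b : A} (hp : Irreducible p) (hb : b ≠ 0) :
    (factors (p * b)).card = (factors b).card + 1 := by
  have h1 : Multiset.Rel Associated (factors (p * b)) (p ::ₘ factors b) := by
    apply factors_unique
    · exact fun x hx => irreducible_of_factor x hx
    · intro x hx
      rcases Multiset.mem_cons.1 hx with h2 | h2
      · rw [h2]; exact hp
      · exact irreducible_of_factor x h2
    · rw [Multiset.prod_cons]
      exact (factors_prod (mul_ne_zero hp.ne_zero hb)).trans ((factors_prod hb).symm.mul_left p)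
  rw [Multiset.card_eq_card_of_rel h1, Multiset.card_cons]

theorem mob_mul {p b : A} (hp : Irreducible p) (hb : ¬ p ∣ b) : mob (p * b) = - mob b := by
  unfold mob
  have hb0 : b ≠ 0 := fun h => hb (h ▸ dvd_zero p)
  have h1 : Squarefree (p * b) ↔ Squarefree b := by
    rw [squarefree_mul_iff]
    constructor
    · exact fun h => h.2.2
    · exact fun h => ⟨(hp.isRelPrime_iff_not_dvd).2 hb, hp.squarefree, h⟩
  by_cases h : Squarefree b
  · rw [if_pos (h1.2 h), if_pos h, card_mul hp hb0, pow_succ, mul_neg_one]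
  · rw [if_neg (fun h2 => h (h1.1 h2)), if_neg h, neg_zero]

theorem mob_sq {p b : A} (hp : Irreducible p) (hb : p ∣ b) : mob (p * b) = 0 := by
  unfold mob
  rw [if_neg]
  intro h
  exact hp.not_isUnit (h p (mul_dvd_mul_left p hb))

theorem sum_mob [Finite Aˣ] (γ : A) (hγ : γ ≠ 0) (hu : ¬ IsUnit γ) :
    ∑ᶠ β ∈ {β : A | β ∣ γ}, mob β = 0 := by
  classical
  have := Fintype.ofFinite Aˣ
  have hfin : {β : A | β ∣ γ}.Finite := by
    have h0 := fintypeSubtypeDvd γ hγ
    exact @Set.toFinite A {β : A | β ∣ γ} (@Finite.of_fintype _ h0)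
  rw [finsum_mem_eq_finite_toFinset_sum _ hfin]
  set D := hfin.toFinset with hD
  have hmem : ∀ β, β ∈ D ↔ β ∣ γ := fun β => by rw [hD, Set.Finite.mem_toFinset]; rfl
  obtain ⟨p, hp, hpg⟩ := WfDvdMonoid.exists_irreducible_factor hu hγ
  have hpr : Prime p := hp.prime
  rw [← Finset.sum_filter_add_sum_filter_not D (fun β => p ∣ β)]
  have h1 : ∑ β ∈ D.filter (fun β => ¬ p ∣ β), - mob β = ∑ β ∈ D.filter (fun β => p ∣ β), mob β := by
    apply Finset.sum_of_injOn (fun β => p * β)
    · intro a _ b _ hab
      exact mul_left_cancel₀ hp.ne_zero hab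
    · intro a ha
      rw [Finset.mem_coe, Finset.mem_filter, hmem] at ha
      rw [Finset.mem_coe, Finset.mem_filter, hmem]
      refine ⟨?_, dvd_mul_right p a⟩
      obtain ⟨c, hc⟩ := ha.1
      have h2 : p ∣ a * c := hc ▸ hpg
      rcases hpr.dvd_or_dvd h2 with h3 | h3
      · exact absurd h3 ha.2
      · obtain ⟨e, he⟩ := h3
        exact ⟨e, by rw [hc, he]; ring⟩
    · intro b hb hb2
      rw [Finset.mem_filter, hmem] at hb
      obtain ⟨e, he⟩ := hb.2
      rw [he]
      apply mob_sq hp
      by_contra h3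
      apply hb2
      refine ⟨e, ?_, he.symm⟩
      rw [Finset.mem_coe, Finset.mem_filter, hmem]
      exact ⟨(Dvd.intro_left p he.symm).trans hb.1, h3⟩
    · intro a ha
      rw [Finset.mem_filter] at ha
      exact (mob_mul hp ha.2).symm
  rw [← h1, Finset.sum_neg_distrib]
  ring

theorem sum_mob_unit [Finite Aˣ] (γ : A) (hu : IsUnit γ) :
    ∑ᶠ β ∈ {β : A | β ∣ γ}, mob β = (Nat.card Aˣ : ℝ) := by
  have h1 : {β : A | β ∣ γ} = Set.range (fun u : Aˣ => (u : A)) := by
    ext β
    constructor
    · intro h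
      exact ⟨(isUnit_of_dvd_unit h hu).unit, rfl⟩
    · rintro ⟨u, rfl⟩
      exact u.isUnit.dvd
  have h2 : ∑ᶠ β ∈ {β : A | β ∣ γ}, mob β = ∑ᶠ β ∈ {β : A | β ∣ γ}, (1 : ℝ) := by
    apply finsum_mem_congr rfl
    intro β hβ
    exact mob_unit (isUnit_of_dvd_unit hβ hu)
  have := Fintype.ofFinite Aˣ
  rw [h2, h1, finsum_mem_range Units.val_injective, finsum_eq_sum_of_fintype, Finset.sum_const,
    Finset.card_univ, nsmul_eq_mul, mul_one, Nat.card_eq_fintype_card]

end gen

theorem c_mu (h : C_BASIC) : C_MU := by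
  intro R ω hR
  have := hR.pid
  have : Finite Rˣ := (h R ω hR).2.2.2.1
  refine ⟨fun β => mob β, fun β => mob_le β, ?_⟩
  intro γ hγ
  by_cases hu : IsUnit γ
  · rw [if_pos hu]
    exact sum_mob_unit γ hu
  · rw [if_neg hu]
    exact sum_mob γ hγ hu

end Pool.Agent.W216.CM
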